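import Pool.Agent.U36.SD.Stm

/-!
# Project SD, package LC: a finite level which fixes `z` (helper535)
-/

set_option autoImplicit false

namespace Pool.Agent.U535.SD

theorem fix_level (K F M B : Type) [Field K] [Field F] [Field M] [Field B]
    [Algebra F M] [Algebra K B] [IsAlgClosure K B] [Algebra.IsAlgebraic F M]
    (s : (B ≃ₐ[K] B) →* (M ≃ₐ[F] M)) (hs : Continuous s) (z : M) :
    ∃ L : IntermediateField K B, FiniteDimensional K L ∧ Normal K L ∧
      ∀ g : B ≃ₐ[K] B, (∀ x ∈ L, g x = x) → s g z = z := by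
  have hz : FiniteDimensional F (IntermediateField.adjoin F {z}) :=
    IntermediateField.adjoin.finiteDimensional (Algebra.IsIntegral.isIntegral z)
  have h1 : IsOpen ((IntermediateField.adjoin F {z}).fixingSubgroup : Set (M ≃ₐ[F] M)) :=
    IntermediateField.fixingSubgroup_isOpen _
  have h2 := h1.preimage hs
  have h3 : s ⁻¹' ((IntermediateField.adjoin F {z}).fixingSubgroup : Set (M ≃ₐ[F] M)) ∈
      nhds (1 : B ≃ₐ[K] B) := by
    refine h2.mem_nhds ?_
    rw [Set.mem_preimage, map_one]
    exact Subgroup.one_mem _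
  have hn : Normal K B := IsAlgClosure.normal K B
  rw [krullTopology_mem_nhds_one_iff_of_normal] at h3
  obtain ⟨E, hE1, hE2, hE3⟩ := h3
  refine ⟨E, hE1, hE2, fun g hg => ?_⟩
  have h4 : g ∈ (E.fixingSubgroup : Set (B ≃ₐ[K] B)) := by
    rw [SetLike.mem_coe, IntermediateField.mem_fixingSubgroup_iff]
    exact hg
  have h5 := hE3 h4
  rw [Set.mem_preimage, SetLike.mem_coe, IntermediateField.mem_fixingSubgroup_iff] at h5
  exact h5 z (IntermediateField.mem_adjoin_simple_self F z)

theorem t_LC : Pool.Agent.U36.SD.S_LC := by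
  intro K F M B _ _ _ _ _ _ _ _ _ _ _ _ s z
  exact fix_level K F M B s.s s.cont z

end Pool.Agent.U535.SD
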